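import Pool.Agent.Y485.HS.Lie
import Pool.Agent.Y485.HS.Final2

/-!
# Compact groups of homeomorphisms of bounded rotation
-/

set_option autoImplicit false

open MeasureTheory Set Metric Filter Topology
open scoped ENNReal NNReal RealInnerProductSpace

noncomputable section

namespace Pool.Agent.V11214.BR

open Pool.Agent.Y485.HS

/-- The mean of a continuous map of a compact space into `ℝⁿ` is a convex combination of `n + 1` of
its values. -/
theorem mean_comb {n : ℕ} {K : Type} [TopologicalSpace K] [CompactSpace K] [MeasurableSpace K]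
    [BorelSpace K] [Nonempty K] (μ : Measure K) [IsProbabilityMeasure μ] {w : K → E n}
    (hw : Continuous w) :
    ∃ c ∈ stdSimplex ℝ (Fin (n + 1)), ∃ h : Fin (n + 1) → K, ∑ i, c i • w (h i) = ∫ k, w k ∂μ := by
  classical
  let C : Set (E n) := (fun q : (Fin (n + 1) → ℝ) × (Fin (n + 1) → K) => ∑ i, q.1 i • w (q.2 i)) ''
    (stdSimplex ℝ (Fin (n + 1)) ×ˢ univ)
  have hC : IsCompact C := by
    refine ((isCompact_stdSimplex ℝ (Fin (n + 1))).prod isCompact_univ).image ?_
    refine continuous_finsetSum _ fun i _ => ?_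
    fun_prop
  have hsub : convexHull ℝ (range w) ⊆ C := by
    intro x hx
    obtain ⟨ι, hι, z, c, hz, hai, hc0, hc1, hcx⟩ := eq_pos_convex_span_of_mem_convexHull hx
    have hcard : Fintype.card ι ≤ Fintype.card (Fin (n + 1)) := by
      have h1 := hai.card_le_finrank_succ
      have h2 : Module.finrank ℝ (vectorSpan ℝ (range z)) ≤ Module.finrank ℝ (E n) :=
        Submodule.finrank_le _
      rw [finrank_euclideanSpace_fin] at h2
      rw [Fintype.card_fin]
      omega
    obtain ⟨e⟩ := Function.Embedding.nonempty_of_card_le hcard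
    have hz' : ∀ i, ∃ k, w k = z i := fun i => hz ⟨i, rfl⟩
    choose k hk using hz'
    refine ⟨(Function.extend e c 0, Function.extend e k (fun _ => Classical.arbitrary K)),
      ⟨⟨?_, ?_⟩, mem_univ _⟩, ?_⟩
    · intro j
      show 0 ≤ Function.extend e c 0 j
      by_cases hj : ∃ i, e i = j
      · obtain ⟨i, rfl⟩ := hj
        rw [e.injective.extend_apply]
        exact (hc0 i).le
      · rw [Function.extend_apply' _ _ _ hj]
        exact le_rfl
    · rw [← hc1]
      refine (Fintype.sum_of_injective e e.injective _ _ ?_ ?_).symm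
      · intro j hj
        exact Function.extend_apply' _ _ _ (fun ⟨i, hi⟩ => hj ⟨i, hi⟩)
      · intro i
        exact (e.injective.extend_apply _ _ _).symm
    · show ∑ j, Function.extend e c 0 j • w (Function.extend e k (fun _ => Classical.arbitrary K) j)
        = x
      rw [← hcx]
      refine (Fintype.sum_of_injective e e.injective _ _ ?_ ?_).symm
      · intro j hj
        rw [Function.extend_apply' _ _ _ (fun ⟨i, hi⟩ => hj ⟨i, hi⟩)]
        exact zero_smul _ _
      · intro i
        rw [e.injective.extend_apply, e.injective.extend_apply, hk]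
  have hsub' : C ⊆ convexHull ℝ (range w) := by
    rintro _ ⟨⟨c, h⟩, ⟨⟨hc0, hc1⟩, -⟩, rfl⟩
    exact (convex_convexHull ℝ (range w)).sum_mem (fun i _ => hc0 i) hc1
      (fun i _ => subset_convexHull ℝ _ ⟨h i, rfl⟩)
  have hcl : IsClosed (convexHull ℝ (range w)) := by
    rw [subset_antisymm hsub hsub']
    exact hC.isClosed
  have hint : Integrable w μ :=
    hw.integrable_of_hasCompactSupport (HasCompactSupport.of_compactSpace w)
  have h1 : ∫ k, w k ∂μ ∈ convexHull ℝ (range w) :=
    (convex_convexHull ℝ (range w)).integral_mem hcl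
      (Filter.Eventually.of_forall fun k => subset_convexHull ℝ _ ⟨k, rfl⟩) hint
  obtain ⟨⟨c, h⟩, ⟨hc, -⟩, hh⟩ := hsub h1
  exact ⟨c, hc, h, hh⟩

/-- `n + 1` nonzero vectors with pairwise angles less than `arccos (-1/n)` have no vanishing convex
combination. -/
theorem no_zero_comb {n : ℕ} (hn : 1 ≤ n) {v : Fin (n + 1) → E n} (hv : ∀ i, v i ≠ 0)
    (hang : ∀ i j, -(1 / (n : ℝ)) * (‖v i‖ * ‖v j‖) < ⟪v i, v j⟫) {c : Fin (n + 1) → ℝ}
    (hc : c ∈ stdSimplex ℝ (Fin (n + 1))) (h0 : ∑ i, c i • v i = 0) : False := by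
  classical
  obtain ⟨hc0, hc1⟩ := hc
  have hn' : (0 : ℝ) < n := by exact_mod_cast hn
  let a : Fin (n + 1) → ℝ := fun i => c i * ‖v i‖
  let q : Fin (n + 1) → Fin (n + 1) → ℝ := fun i j =>
    c i * c j * (⟪v i, v j⟫ + 1 / (n : ℝ) * (‖v i‖ * ‖v j‖))
  have hq0 : ∀ i j, 0 ≤ q i j := by
    intro i j
    refine mul_nonneg (mul_nonneg (hc0 i) (hc0 j)) ?_
    linarith [hang i j]
  have hsum : ∑ i, ∑ j, q i j = 1 / (n : ℝ) * (∑ i, a i) ^ 2 := by
    have h1 : ∑ i, ∑ j, c i * c j * ⟪v i, v j⟫ = 0 := by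
      have h2 : ⟪∑ i, c i • v i, ∑ j, c j • v j⟫ = 0 := by rw [h0, inner_zero_left]
      rw [sum_inner] at h2
      rw [← h2]
      refine Finset.sum_congr rfl fun i _ => ?_
      rw [inner_sum]
      refine Finset.sum_congr rfl fun j _ => ?_
      rw [real_inner_smul_left, real_inner_smul_right]
      ring
    have h3 : ∑ i, ∑ j, q i j = ∑ i, ∑ j, c i * c j * ⟪v i, v j⟫ +
        ∑ i, ∑ j, 1 / (n : ℝ) * (a i * a j) := by
      rw [← Finset.sum_add_distrib]
      refine Finset.sum_congr rfl fun i _ => ?_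
      rw [← Finset.sum_add_distrib]
      refine Finset.sum_congr rfl fun j _ => ?_
      simp only [q, a]
      ring
    rw [h3, h1, zero_add, sq, Finset.sum_mul_sum, Finset.mul_sum]
    refine Finset.sum_congr rfl fun i _ => ?_
    rw [Finset.mul_sum]
  have hdiag : ∑ i, q i i = (1 + 1 / (n : ℝ)) * ∑ i, a i ^ 2 := by
    rw [Finset.mul_sum]
    refine Finset.sum_congr rfl fun i _ => ?_
    simp only [q, a]
    rw [real_inner_self_eq_norm_sq]
    ring
  have hcs : (∑ i, a i) ^ 2 ≤ ((n : ℝ) + 1) * ∑ i, a i ^ 2 := by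
    have h1 := sq_sum_le_card_mul_sum_sq (s := (Finset.univ : Finset (Fin (n + 1)))) (f := a)
    rw [Finset.card_univ, Fintype.card_fin] at h1
    push_cast at h1
    exact h1
  have hoff : ∑ i, ∑ j, q i j ≤ ∑ i, q i i := by
    rw [hsum, hdiag]
    calc 1 / (n : ℝ) * (∑ i, a i) ^ 2 ≤ 1 / (n : ℝ) * (((n : ℝ) + 1) * ∑ i, a i ^ 2) := by
          gcongr
      _ = (1 + 1 / (n : ℝ)) * ∑ i, a i ^ 2 := by field_simp
  have hz : ∀ i j, i ≠ j → q i j = 0 := by
    intro i j hij
    by_contra hne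
    have hpos : 0 < q i j := lt_of_le_of_ne (hq0 i j) (Ne.symm hne)
    have h1 : ∑ i, q i i < ∑ i, ∑ j, q i j := by
      refine Finset.sum_lt_sum (fun i _ => Finset.single_le_sum (fun j _ => hq0 i j)
        (Finset.mem_univ i)) ⟨i, Finset.mem_univ i, ?_⟩
      have h2 : q i i + q i j ≤ ∑ j, q i j := by
        rw [← Finset.sum_pair (f := fun j => q i j) hij]
        exact Finset.sum_le_sum_of_subset_of_nonneg (Finset.subset_univ _) (fun j _ _ => hq0 i j)
      linarith
    linarith
  obtain ⟨i, hi⟩ : ∃ i, c i ≠ 0 := by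
    by_contra hcon
    push Not at hcon
    rw [Finset.sum_eq_zero (fun i _ => hcon i)] at hc1
    exact zero_ne_one hc1
  have hcj : ∀ j, j ≠ i → c j = 0 := by
    intro j hj
    have h1 := hz i j (Ne.symm hj)
    have h2 : 0 < ⟪v i, v j⟫ + 1 / (n : ℝ) * (‖v i‖ * ‖v j‖) := by linarith [hang i j]
    rcases mul_eq_zero.1 h1 with h | h
    · exact (mul_eq_zero.1 h).resolve_left hi
    · exact absurd h h2.ne'
  rw [Finset.sum_eq_single i (fun j _ hj => by rw [hcj j hj, zero_smul])
    (fun h => absurd (Finset.mem_univ i) h)] at h0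
  rcases smul_eq_zero.1 h0 with h | h
  · exact hi h
  · exact hv i h

/-- the condition on the rotation -/
def Rot {X G : Type} [Group G] [MulAction G X] (n : ℕ) (U : Set X) (ψ : X → E n) (g : G) : Prop :=
  ∀ y ∈ U, ∀ z ∈ U, y ≠ z → g • y ∈ U → g • z ∈ U →
    -(1 / (n : ℝ)) * (‖ψ (g • y) - ψ (g • z)‖ * ‖ψ y - ψ z‖) < ⟪ψ (g • y) - ψ (g • z), ψ y - ψ z⟫

/-- The local theorem. -/
theorem local_triv {n : ℕ} (hn : 1 ≤ n) {X : Type} [TopologicalSpace X] [T2Space X] {K : Type}
    [Group K] [TopologicalSpace K] [IsTopologicalGroup K] [CompactSpace K] [T2Space K]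
    [MulAction K X] [ContinuousSMul K X] {U : Set X} {ψ : X → E n} (hU : IsOpen U)
    (hψ : ContinuousOn ψ U) (hinj : InjOn ψ U) (hrot : ∀ k : K, Rot n U ψ k) {x : X}
    (hx : ∀ k : K, k • x ∈ U) : ∀ᶠ y in 𝓝 x, ∀ k : K, k • y = y := by
  have h1 : ∀ᶠ y in 𝓝 x, ∀ k ∈ (univ : Set K), k • y ∈ U := by
    refine isCompact_univ.eventually_forall_of_forall_eventually ?_
    intro k _
    have hc : Continuous (fun q : X × K => q.2 • q.1) := by fun_prop
    exact hc.continuousAt.eventually_mem (hU.mem_nhds (hx k))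
  filter_upwards [h1] with y hy k
  replace hy : ∀ k : K, k • y ∈ U := fun k => hy k (mem_univ k)
  by_contra hne
  let _ : MeasurableSpace K := borel K
  have _ : BorelSpace K := ⟨rfl⟩
  let μ : Measure K := Measure.haarMeasure ⊤
  have hμ1 : IsProbabilityMeasure μ := ⟨by
    have := Measure.haarMeasure_self (K₀ := (⊤ : TopologicalSpace.PositiveCompacts K))
    simpa using this⟩
  have hfc : Continuous (fun h : K => ψ (h⁻¹ • y)) :=
    hψ.comp_continuous (by fun_prop) (fun h => hy h⁻¹)
  have hgc : Continuous (fun h : K => ψ (h⁻¹ • (k • y))) :=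
    hψ.comp_continuous (by fun_prop) (fun h => by rw [← mul_smul]; exact hy _)
  have hf : Integrable (fun h : K => ψ (h⁻¹ • y)) μ :=
    hfc.integrable_of_hasCompactSupport (HasCompactSupport.of_compactSpace _)
  have hg : Integrable (fun h : K => ψ (h⁻¹ • (k • y))) μ :=
    hgc.integrable_of_hasCompactSupport (HasCompactSupport.of_compactSpace _)
  have hzero : ∫ h, (ψ (h⁻¹ • y) - ψ (h⁻¹ • (k • y))) ∂μ = 0 := by
    rw [integral_sub hf hg, sub_eq_zero]
    have h2 := integral_mul_left_eq_self (μ := μ) (fun h : K => ψ (h⁻¹ • y)) k⁻¹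
    rw [← h2]
    refine integral_congr_ae (Filter.Eventually.of_forall fun h => ?_)
    show ψ ((k⁻¹ * h)⁻¹ • y) = ψ (h⁻¹ • (k • y))
    rw [mul_inv_rev, inv_inv, mul_smul]
  obtain ⟨c, hc, h, hh⟩ := mean_comb μ (w := fun h : K => ψ (h⁻¹ • y) - ψ (h⁻¹ • (k • y)))
    (hfc.sub hgc)
  rw [hzero] at hh
  refine no_zero_comb hn (v := fun i => ψ ((h i)⁻¹ • y) - ψ ((h i)⁻¹ • (k • y))) ?_ ?_ hc hh
  · intro i hi
    have h3 := hinj (hy _) (by rw [← mul_smul]; exact hy _) (sub_eq_zero.1 hi)
    exact hne (MulAction.injective _ h3).symm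
  · intro i j
    have h4 := hrot ((h i)⁻¹ * h j) ((h j)⁻¹ • y) (hy _) ((h j)⁻¹ • (k • y))
      (by rw [← mul_smul]; exact hy _) (fun h5 => hne (MulAction.injective _ h5).symm)
      (by rw [← mul_smul]; exact hy _) (by rw [← mul_smul, ← mul_smul]; exact hy _)
    rw [← mul_smul, ← mul_smul, mul_assoc, mul_inv_cancel, mul_one] at h4
    exact h4

/-- Locally compact groups of homeomorphisms of bounded rotation. -/
theorem lie_rot {n : ℕ} (hn : 1 ≤ n) {X : Type} [TopologicalSpace X] [T2Space X] {R : Set X}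
    (hdense : Dense R) (hconn : IsPreconnected R)
    {G : Type} [Group G] [TopologicalSpace G] [IsTopologicalGroup G] [LocallyCompactSpace G]
    [MulAction G X] [ContinuousSMul G X] [FaithfulSMul G X] {V : Set G} (hV : V ∈ 𝓝 (1 : G))
    (hrot : ∀ x ∈ R, ∃ (U : Set X) (ψ : X → E n), U ∈ 𝓝 x ∧ ContinuousOn ψ U ∧ InjOn ψ U ∧
      ∀ g ∈ V, Rot n U ψ g) : IsLie G := by
  have hT : T2Space G := by
    refine ⟨fun g h hgh => ?_⟩
    obtain ⟨x, hx⟩ : ∃ x : X, g • x ≠ h • x := by
      by_contra hall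
      push Not at hall
      exact hgh (eq_of_smul_eq_smul hall)
    obtain ⟨u, v, hu, hv, hgu, hhv, huv⟩ := t2_separation hx
    have hc : Continuous (fun g : G => g • x) := by fun_prop
    exact ⟨_, _, hu.preimage hc, hv.preimage hc, hgu, hhv, huv.preimage _⟩
  have hrot' : ∀ x ∈ R, ∃ (U : Set X) (ψ : X → E n), IsOpen U ∧ x ∈ U ∧ ContinuousOn ψ U ∧
      InjOn ψ U ∧ ∀ g ∈ V, Rot n U ψ g := by
    intro x hx
    obtain ⟨U, ψ, hU, hψ, hi, hr⟩ := hrot x hx
    refine ⟨interior U, ψ, isOpen_interior, mem_interior_iff_mem_nhds.2 hU,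
      hψ.mono interior_subset, hi.mono interior_subset, ?_⟩
    intro g hg y hy z hz hyz hgy hgz
    exact hr g hg y (interior_subset hy) z (interior_subset hz) hyz (interior_subset hgy)
      (interior_subset hgz)
  have hNSS : Pool.Agent.W660.GY.NSS G := by
    refine nss_of_Z V hV ?_
    intro S _ _ _ _ _ _ i hi hinj hiV
    let _ : MulAction S X := MulAction.compHom X i
    have _ : ContinuousSMul S X := ⟨by
      have h : Continuous (fun q : S × X => i q.1 • q.2) := by fun_prop
      exact h⟩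
    have hrotS : ∀ x ∈ R, ∃ (U : Set X) (ψ : X → E n), IsOpen U ∧ x ∈ U ∧ ContinuousOn ψ U ∧
        InjOn ψ U ∧ ∀ s : S, Rot n U ψ s := by
      intro x hx
      obtain ⟨U, ψ, h1, h2, h3, h4, h5⟩ := hrot' x hx
      exact ⟨U, ψ, h1, h2, h3, h4, fun s => h5 (i s) (hiV s)⟩
    have hmain : ∃ K : Subgroup S, IsOpen (K : Set S) ∧ ∀ k ∈ K, ∀ x : X, k • x = x := by
      rcases isEmpty_or_nonempty X with hX | hX
      · exact ⟨⊤, isOpen_univ, fun k _ x => (hX.false x).elim⟩
      obtain ⟨x0, hx0⟩ := hdense.nonempty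
      obtain ⟨U, ψ, hU, hx0U, hψ, hinjψ, hr⟩ := hrotS x0 hx0
      have hW : (fun s : S => s • x0) ⁻¹' U ∈ 𝓝 (1 : S) := by
        have hc : Continuous (fun s : S => s • x0) := by fun_prop
        refine hc.continuousAt.preimage_mem_nhds ?_
        rw [one_smul]
        exact hU.mem_nhds hx0U
      obtain ⟨O, hOV, hO, h1⟩ := mem_nhds_iff.1 hW
      obtain ⟨D, hD, h1D, hDO⟩ := compact_exists_isClopen_in_isOpen hO h1
      obtain ⟨K', hK'⟩ := IsTopologicalGroup.exist_openSubgroup_sub_clopen_nhds_of_one hD h1D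
      let K : Subgroup S := K'
      have hKo : IsOpen (K : Set S) := K'.isOpen
      have hK : ∀ k ∈ K, k • x0 ∈ U := fun k hk => hOV (hDO (hK' hk))
      refine ⟨K, hKo, ?_⟩
      have hKc : IsClosed (K : Set S) := Subgroup.isClosed_of_isOpen K hKo
      have : CompactSpace K := isCompact_iff_compactSpace.1 hKc.isCompact
      let Z : Set X := {x | ∀ᶠ y in 𝓝 x, ∀ q : K, q • y = y}
      have hZo : IsOpen Z := by
        rw [isOpen_iff_mem_nhds]
        intro x hx
        exact eventually_eventually_nhds.2 hx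
      have hZ0 : x0 ∈ Z := local_triv (K := K) hn hU hψ hinjψ (fun k => hr (k : S))
        (fun k => hK k k.2)
      have hsub : R ⊆ Z := by
        refine hconn.subset_of_closure_inter_subset hZo ⟨x0, hx0, hZ0⟩ ?_
        rintro x ⟨hxZ, hxR⟩
        have hfix : ∀ q : K, q • x = x := by
          intro q
          have hcl : IsClosed {y : X | q • y = y} :=
            isClosed_eq (continuous_const_smul q) continuous_id
          have h2 : Z ⊆ {y : X | q • y = y} := fun y hy => hy.self_of_nhds q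
          exact (hcl.closure_subset_iff.2 h2) hxZ
        obtain ⟨U', ψ', hU', hxU', hψ', hinjψ', hr'⟩ := hrotS x hxR
        exact local_triv (K := K) hn hU' hψ' hinjψ' (fun k => hr' (k : S))
          (fun k => by rw [hfix k]; exact hxU')
      intro k hk x
      have hcl : IsClosed {x : X | k • x = x} :=
        isClosed_eq (continuous_const_smul k) continuous_id
      have h2 : R ⊆ {x : X | k • x = x} := by
        intro y hy
        exact (hsub hy).self_of_nhds ⟨k, hk⟩
      have h3 := hcl.closure_subset_iff.2 h2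
      rw [hdense.closure_eq] at h3
      exact h3 (mem_univ x)
    obtain ⟨K, hKo, hKt⟩ := hmain
    have hbot : K = ⊥ := by
      rw [eq_bot_iff]
      intro k hk
      rw [Subgroup.mem_bot]
      apply hinj
      refine eq_of_smul_eq_smul (α := X) fun x => ?_
      rw [map_one, one_smul]
      exact hKt k hk x
    rw [hbot] at hKo
    refine discreteTopology_of_isOpen_singleton_one ?_
    convert hKo using 1
    ext x
    simp
  obtain ⟨E', i1, i2, i3, ⟨C⟩⟩ := Pool.Agent.Y328.HS.lga G hNSS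
  let _ := i1
  let _ := i2
  have _ := i3
  exact Pool.Agent.Y286.HS.lgb G E' C

end Pool.Agent.V11214.BR
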